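import Pool.Agent.H36.BRX.EXP
import Pool.Agent.H61.BRX.DIOAll
import Pool.Agent.H18.BRX.LGS
import Pool.Agent.H55.BRX.NML

/-!
MP_9010c3_nt: explicit bounds for the finite cycles of Collatz's original permutation with a given
number of local minima.
-/

set_option autoImplicit false

open Finset

namespace Pool.Agent.Results.MP_9010c3_nt.EffectiveBounds

/-- A cycle of length `k` with `L` local minima through `m ≥ 2` has `k < 2 ^ (L + 14)`,
`m < 2 ^ (2 ^ (L + 12))` and an element at most `2 ^ 1200 * k ^ 109`. -/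
theorem result (f : ℕ → ℕ)
    (hf : ∀ n : ℕ, 1 ≤ n → f (3 * n) = 2 * n ∧ f (3 * n - 1) = 4 * n - 1 ∧
      f (3 * n - 2) = 4 * n - 3)
    (m k L : ℕ) (hm : 2 ≤ m) (hk : 1 ≤ k) (hcyc : f^[k] m = m)
    (hL : L = ((range k).filter fun j =>
      f^[j + 1] m < f^[j] m ∧ f^[j + 1] m < f^[j + 2] m).card) :
    (∃ j, f^[j] m ≤ 2 ^ 1200 * k ^ 109) ∧ k < 2 ^ (L + 14) ∧ m < 2 ^ (2 ^ (L + 12)) := by
  have hF : ∀ i, f^[i] m = Pool.STN.F^[i] m :=
    fun i => (Pool.STN.FEQ_thm f hf m (by omega) i).1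
  have hcyc' : Pool.STN.F^[k] m = m := by rw [← hF k]; exact hcyc
  have el : L = Pool.STN.lm Pool.STN.F m k := by
    rw [hL]
    unfold Pool.STN.lm
    congr 1
    apply Finset.filter_congr
    intro j _
    rw [hF, hF, hF]
  obtain ⟨⟨j, hj⟩, e2, e3⟩ := Pool.STN.EXPL_thm Pool.STN.brx_dio Pool.STN.TRI_thm
    Pool.STN.LGS_thm (Pool.STN.NML_thm Pool.STN.TRI_thm) m k hm hk hcyc'
  rw [el]
  exact ⟨⟨j, by rw [hF]; exact hj⟩, e2, e3⟩

end Pool.Agent.Results.MP_9010c3_nt.EffectiveBounds
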