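import Pool.Agent.H78.STN.AllC

set_option autoImplicit false

open Finset

namespace Pool.Agent.Results.MP_9010c3_nt.ElevenMinima

/-- Every finite cycle of Collatz's original permutation with at most eleven local minima is one of
`(1)`, `(2 3)`, `(4 5 7 9 6)`, `(44 59 79 105 70 93 62 83 111 74 99 66)`. -/
theorem result (f : ℕ → ℕ) (h0 : ∀ n, 1 ≤ n → f (3 * n) = 2 * n)
    (h1 : ∀ n, 1 ≤ n → f (3 * n - 1) = 4 * n - 1) (h2 : ∀ n, 1 ≤ n → f (3 * n - 2) = 4 * n - 3)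
    (m k : ℕ) (hm : 1 ≤ m) (hk : 1 ≤ k) (hper : f^[k] m = m)
    (hL : ((range k).filter fun j => f^[j + 1] m < f^[j] m ∧ f^[j + 1] m < f^[j + 2] m).card ≤ 11) :
    m ∈ ({1, 2, 3, 4, 5, 6, 7, 9, 44, 59, 79, 105, 70, 93, 62, 83, 111, 74, 99, 66} : Finset ℕ) :=
  Pool.STN.fik_all f (fun n hn => ⟨h0 n hn, h1 n hn, h2 n hn⟩) m k hm hk hper hL

end Pool.Agent.Results.MP_9010c3_nt.ElevenMinima
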