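import Pool.Agent.H71.CP.Sparse

set_option autoImplicit false

namespace Pool.Agent.Results.MP_9010c3_nt.SparseCycles

/-- For Collatz's original permutation at most `4 * Y ^ (75 / 76)` positive integers have all their
iterates at most `Y`; these are the elements of the finite cycles contained in `[1, Y]`. -/
theorem result (f : ℕ → ℕ) (h0 : ∀ n, 1 ≤ n → f (3 * n) = 2 * n)
    (h1 : ∀ n, 1 ≤ n → f (3 * n - 1) = 4 * n - 1) (h2 : ∀ n, 1 ≤ n → f (3 * n - 2) = 4 * n - 3)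
    (Y : ℕ) :
    ({n : ℕ | 1 ≤ n ∧ ∀ j, f^[j] n ≤ Y}.ncard : ℝ) ≤ 4 * (Y : ℝ) ^ (75 / 76 : ℝ) :=
  Pool.Agent.H71.CP.main (Pool.Agent.H71.CP.isC h0 h1 h2) Y

end Pool.Agent.Results.MP_9010c3_nt.SparseCycles
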